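import Pool.Agent.H23.RDD.Targets

/-!
# The descent at one prime, bounded degree: proof of T_DPD
-/

set_option autoImplicit false

namespace Pool.Agent.H5.RDD

open Pool.Agent.H23.RDD Pool.Agent.H24.RD NumberField Height Finset Polynomial

theorem pf_DPD : T_MON → T_STCD → T_STKD → T_DPD := by
  intro hMON hSTC hSTK F Ω _ _ _ _ _ _ _ p hp r γ hγ d hd
  obtain ⟨R0, n0, δ1, hδ1, h1⟩ := hSTC F Ω p hp r γ hγ.1 d hd
  obtain ⟨m0, Q, δ2, hδ2, hQ, h2⟩ := hSTK F Ω p hp r γ hγ R0 d hd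
  refine ⟨max m0 n0 + R0 + 1, Q, min δ1 δ2, lt_min hδ1 hδ2, hQ, ?_⟩
  intro n m N' K' hmn hN' hQN hK' α hα hh
  have hm0 : m0 ≤ max m0 n0 := le_max_left _ _
  have hn0 : n0 ≤ max m0 n0 := le_max_right _ _
  have hN'0 : 0 < N' := by
    rcases Nat.eq_zero_or_pos N' with h | h
    · rw [h] at hN'
      exact absurd (dvd_zero p) hN'
    · exact h
  have hK'0 : 0 < K' := Nat.pos_of_dvd_of_pos hK' hN'0
  have hpp : ∀ j : ℕ, 0 < p ^ j := fun j => pow_pos hp.pos j
  have key : ∀ t n m : ℕ, n + m = t → m ≤ n → RepD F Ω γ (p ^ n * N') (p ^ m * K') d α →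
      RepD F Ω γ (p ^ (max m0 n0 + R0 + 1) * N') (p ^ (max m0 n0 + R0 + 1) * K') d α := by
    intro t
    induction t with
    | zero =>
      intro n m ht hmn hr
      refine (hMON F Ω r γ hγ.1 _ _ _ _ d (Nat.mul_pos (hpp n) hN'0) (Nat.mul_pos (hpp m) hK'0)
        ?_ ?_ ?_ (Nat.mul_pos (hpp _) hN'0) α).2 hr
      · exact Nat.mul_dvd_mul_right (pow_dvd_pow p (by omega)) _
      · exact Nat.mul_dvd_mul_right (pow_dvd_pow p (by omega)) _
      · exact Nat.mul_dvd_mul_left _ hK'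
    | succ t ih =>
      intro n m ht hmn hr
      by_cases hn : n ≤ max m0 n0 + R0 + 1
      · refine (hMON F Ω r γ hγ.1 _ _ _ _ d (Nat.mul_pos (hpp n) hN'0) (Nat.mul_pos (hpp m) hK'0)
          ?_ ?_ ?_ (Nat.mul_pos (hpp _) hN'0) α).2 hr
        · exact Nat.mul_dvd_mul_right (pow_dvd_pow p hn) _
        · exact Nat.mul_dvd_mul_right (pow_dvd_pow p (by omega)) _
        · exact Nat.mul_dvd_mul_left _ hK'
      · by_cases hm : m + R0 + 1 ≤ n
        · have h3 := h1 n m N' K' (by omega) (by omega) hN' hK' α hr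
            (hh.trans_le (min_le_left _ _))
          exact ih (n - 1) m (by omega) (by omega) h3
        · have h3 := h2 n m N' K' (by omega) hmn (by omega) hN' hQN hK' α hr
            (hh.trans_le (min_le_right _ _))
          exact ih n (m - 1) (by omega) (by omega) h3
  exact key (n + m) n m rfl hmn hα

end Pool.Agent.H5.RDD
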